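import Pool.Agent.Y262.QE.Stm

/-!
# Project QE, job CYI: integration over the cylinder
-/

set_option autoImplicit false

open Set Filter Topology MeasureTheory
open scoped Real ContDiff ComplexConjugate

noncomputable section

namespace Pool.Agent.Y905.QE

open Pool.Agent.Y262.QE

theorem isOpen_rec (L b : ℝ) : IsOpen (Rec L b) := by
  unfold Rec
  refine IsOpen.and (IsOpen.and ?_ ?_) (IsOpen.and ?_ ?_)
  · exact isOpen_lt continuous_const Complex.continuous_re
  · exact isOpen_lt Complex.continuous_re continuous_const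
  · exact isOpen_lt continuous_const Complex.continuous_im
  · exact isOpen_lt Complex.continuous_im continuous_const

theorem rec_sub_strip (L b : ℝ) : Rec L b ⊆ Strip L := fun _ hz => hz.1

theorem vol_line (c : ℝ) : volume {z : ℂ | z.im = c} = 0 := by
  have h := Complex.volume_preserving_equiv_real_prod
  have e : {z : ℂ | z.im = c} = Complex.measurableEquivRealProd ⁻¹' (univ ×ˢ {c}) := by
    ext z
    simp
  rw [e, h.measure_preimage_equiv, Measure.volume_eq_prod, Measure.prod_prod]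
  simp

theorem shift_cover {L : ℝ} {z : ℂ} (hz : z ∈ Strip L) :
    ∃ k : ℤ, z + k * (2 * π * Complex.I) ∈ Rec L (-π) ∨ z + k * (2 * π * Complex.I) ∈ Rec L 0 := by
  have hπ := Real.pi_pos
  refine ⟨-⌈(z.im - π) / (2 * π)⌉, ?_⟩
  set m := ⌈(z.im - π) / (2 * π)⌉ with hm
  have h1 : (z.im - π) / (2 * π) ≤ m := Int.le_ceil _
  have h2 : (m : ℝ) < (z.im - π) / (2 * π) + 1 := Int.ceil_lt_add_one _
  rw [div_le_iff₀ (by positivity)] at h1
  have h2' : (m : ℝ) - 1 < (z.im - π) / (2 * π) := by linarith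
  rw [lt_div_iff₀ (by positivity)] at h2'
  have ere : (z + ((-m : ℤ) : ℂ) * (2 * π * Complex.I)).re = z.re := by
    simp
  have eim : (z + ((-m : ℤ) : ℂ) * (2 * π * Complex.I)).im = z.im - m * (2 * π) := by
    simp
    ring
  have hz1 : 0 < z.re ∧ z.re < L := hz
  rcases lt_or_eq_of_le (show z.im - m * (2 * π) ≤ π by linarith) with h | h
  · left
    refine ⟨?_, ?_⟩
    · rw [ere]; exact hz1
    · rw [eim]; constructor <;> linarith
  · right
    refine ⟨?_, ?_⟩
    · rw [ere]; exact hz1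
    · rw [eim, h]; constructor <;> linarith

set_option linter.unusedSectionVars false

section

variable {M : Type} [MetricSpace M] [CompactSpace M] [MeasurableSpace M] [BorelSpace M]
  {μ : Measure M} {D : Data M} {L : ℝ} {Φ : ℂ → M} {σ : M → M}

theorem per_int (hC : D.IsCyl μ L Φ σ) (z : ℂ) (k : ℤ) :
    Φ (z + k * (2 * π * Complex.I)) = Φ z := by
  have h : Function.Periodic Φ (2 * π * Complex.I) := hC.per
  exact h.int_mul k z

theorem cont_rec (hS : D.IsSurf μ) {b : ℝ} {i : Fin D.N} (hT : D.T i = Rec L b)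
    (h : ∀ z ∈ Rec L b, D.ψ i z = Φ z ∧ D.A i z = ContinuousLinearMap.id ℝ ℂ) :
    ContinuousOn Φ (Rec L b) := by
  have := hS.contψ i
  rw [hT] at this
  exact this.congr fun z hz => (h z hz).1.symm

theorem image_rec (hS : D.IsSurf μ) {b : ℝ} {i : Fin D.N} (hT : D.T i = Rec L b)
    (h : ∀ z ∈ Rec L b, D.ψ i z = Φ z ∧ D.A i z = ContinuousLinearMap.id ℝ ℂ) :
    Φ '' Rec L b = D.U i := by
  ext x
  constructor
  · rintro ⟨z, hz, rfl⟩
    have hz' := hz
    rw [← hT] at hz'
    obtain ⟨x, hx, rfl⟩ := hz'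
    rw [← (h _ hz).1, hS.left i x hx]
    exact hx
  · intro hx
    have hz : D.φ i x ∈ Rec L b := hT ▸ mem_image_of_mem _ hx
    exact ⟨D.φ i x, hz, by rw [← (h _ hz).1, hS.left i x hx]⟩

theorem phi_image (hS : D.IsSurf μ) {b : ℝ} {i : Fin D.N} (hT : D.T i = Rec L b)
    (h : ∀ z ∈ Rec L b, D.ψ i z = Φ z ∧ D.A i z = ContinuousLinearMap.id ℝ ℂ) (B : Set M) :
    D.φ i '' (B ∩ D.U i) = Φ ⁻¹' B ∩ Rec L b := by
  ext z
  constructor
  · rintro ⟨x, ⟨hB, hx⟩, rfl⟩
    have hz : D.φ i x ∈ Rec L b := hT ▸ mem_image_of_mem _ hx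
    refine ⟨?_, hz⟩
    show Φ (D.φ i x) ∈ B
    rw [← (h _ hz).1, hS.left i x hx]
    exact hB
  · rintro ⟨hB, hz⟩
    have hz' := hz
    rw [← hT] at hz'
    obtain ⟨x, hx, rfl⟩ := hz'
    refine ⟨x, ⟨?_, hx⟩, rfl⟩
    have : Φ (D.φ i x) ∈ B := hB
    rwa [← (h _ hz).1, hS.left i x hx] at this

theorem meas_chart (hS : D.IsSurf μ) {b : ℝ} {i : Fin D.N} (hT : D.T i = Rec L b)
    (h : ∀ z ∈ Rec L b, D.ψ i z = Φ z ∧ D.A i z = ContinuousLinearMap.id ℝ ℂ) {B : Set M}
    (hB : MeasurableSet B) : μ (B ∩ D.U i) = volume (Φ ⁻¹' B ∩ Rec L b) := by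
  rw [hS.area i _ inter_subset_right (hB.inter (hS.openU i).measurableSet), phi_image hS hT h]
  have hm : MeasurableSet (Φ ⁻¹' B ∩ Rec L b) := by
    have hc := cont_rec hS hT h
    have hr : MeasurableSet (Rec L b) := (isOpen_rec L b).measurableSet
    have h3 : Measurable (fun z : Rec L b => Φ z) := (continuousOn_iff_continuous_domRestrict.1 hc).measurable
    have h4 := h3 hB
    have h5 := MeasurableSet.subtype_image hr h4
    convert h5 using 1
    ext z
    simp [and_comm]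
  rw [← setLIntegral_one]
  refine setLIntegral_congr_fun hm fun z hz => ?_
  have e : (ContinuousLinearMap.id ℝ ℂ).det = 1 := LinearMap.det_id
  rw [(h z hz.2).2, e]
  simp

theorem image_strip (hS : D.IsSurf μ) (hC : D.IsCyl μ L Φ σ) {i j : Fin D.N}
    (hT : D.T i = Rec L (-π))
    (h : ∀ z ∈ Rec L (-π), D.ψ i z = Φ z ∧ D.A i z = ContinuousLinearMap.id ℝ ℂ)
    (hT1 : D.T j = Rec L 0)
    (h1 : ∀ z ∈ Rec L 0, D.ψ j z = Φ z ∧ D.A j z = ContinuousLinearMap.id ℝ ℂ) :
    Φ '' Strip L = D.U i ∪ D.U j := by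
  apply Subset.antisymm
  · rintro _ ⟨z, hz, rfl⟩
    obtain ⟨k, hk | hk⟩ := shift_cover hz
    · left
      rw [← image_rec hS hT h]
      exact ⟨_, hk, per_int hC z k⟩
    · right
      rw [← image_rec hS hT1 h1]
      exact ⟨_, hk, per_int hC z k⟩
  · rw [← image_rec hS hT h, ← image_rec hS hT1 h1]
    exact union_subset (image_mono (rec_sub_strip _ _)) (image_mono (rec_sub_strip _ _))

theorem cont_strip (hS : D.IsSurf μ) (hC : D.IsCyl μ L Φ σ) : ContinuousOn Φ (Strip L) := by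
  obtain ⟨i, hT, h⟩ := hC.chart (-π) (Or.inl rfl)
  obtain ⟨j, hT1, h1⟩ := hC.chart 0 (Or.inr rfl)
  intro z hz
  apply ContinuousAt.continuousWithinAt
  obtain ⟨k, hk⟩ := shift_cover hz
  have hc : ContinuousAt Φ (z + k * (2 * π * Complex.I)) := by
    rcases hk with hk | hk
    · exact (cont_rec hS hT h).continuousAt ((isOpen_rec _ _).mem_nhds hk)
    · exact (cont_rec hS hT1 h1).continuousAt ((isOpen_rec _ _).mem_nhds hk)
  have e : Φ = fun z => Φ (z + k * (2 * π * Complex.I)) := by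
    funext w
    exact (per_int hC w k).symm
  rw [e]
  exact ContinuousAt.comp' (f := fun w : ℂ => w + k * (2 * π * Complex.I)) hc
    (continuous_id.add continuous_const).continuousAt

theorem null_rest (hS : D.IsSurf μ) (hC : D.IsCyl μ L Φ σ) {i j : Fin D.N}
    (hT : D.T i = Rec L (-π))
    (h : ∀ z ∈ Rec L (-π), D.ψ i z = Φ z ∧ D.A i z = ContinuousLinearMap.id ℝ ℂ)
    (hT1 : D.T j = Rec L 0)
    (h1 : ∀ z ∈ Rec L 0, D.ψ j z = Φ z ∧ D.A j z = ContinuousLinearMap.id ℝ ℂ) :
    μ (D.U j \ D.U i) = 0 := by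
  have hπ := Real.pi_pos
  have hm : MeasurableSet (D.U j \ D.U i) :=
    (hS.openU j).measurableSet.diff (hS.openU i).measurableSet
  rw [hS.area j _ sdiff_subset hm]
  apply setLIntegral_measure_zero
  refine measure_mono_null ?_ (vol_line π)
  rintro _ ⟨x, ⟨hx, hxi⟩, rfl⟩
  have hz : D.φ j x ∈ Rec L 0 := hT1 ▸ mem_image_of_mem _ hx
  have hxz : Φ (D.φ j x) = x := by rw [← (h1 _ hz).1, hS.left j x hx]
  show (D.φ j x).im = π
  rw [← image_rec hS hT h] at hxi
  rcases lt_trichotomy (D.φ j x).im π with hlt | heq | hgt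
  · exact absurd ⟨D.φ j x, ⟨hz.1, by constructor <;> linarith [hz.2.1]⟩, hxz⟩ hxi
  · exact heq
  · refine absurd ⟨D.φ j x + ((-1 : ℤ) : ℂ) * (2 * π * Complex.I), ⟨?_, ?_⟩, ?_⟩ hxi
    · simpa using hz.1
    · have := hz.2.2
      have e : (D.φ j x + ((-1 : ℤ) : ℂ) * (2 * π * Complex.I)).im = (D.φ j x).im - 2 * π := by
        simp
        ring
      rw [e]
      constructor <;> linarith
    · rw [per_int hC, hxz]

end

/-- **Job CYI.** Integration over the cylinder (the statement `StInt` is not needed). -/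
theorem cyi' : StCyi := by
  intro M _ _ _ _ μ D hS L Φ σ hC
  obtain ⟨i, hT, h⟩ := hC.chart (-π) (Or.inl rfl)
  obtain ⟨j, hT1, h1⟩ := hC.chart 0 (Or.inr rfl)
  have him := image_strip hS hC hT h hT1 h1
  have hae : AEMeasurable Φ (volume.restrict (Rec L (-π))) :=
    (cont_rec hS hT h).aemeasurable (isOpen_rec _ _).measurableSet
  refine ⟨cont_strip hS hC, ?_, hae, ?_⟩
  · rw [him]
    exact (hS.openU i).union (hS.openU j)
  · ext B hB
    rw [Measure.map_apply_of_aemeasurable hae hB,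
      Measure.restrict_apply' (isOpen_rec _ _).measurableSet, Measure.restrict_apply hB, him,
      ← meas_chart hS hT h hB]
    apply le_antisymm
    · exact measure_mono (inter_subset_inter_right _ subset_union_left)
    · have hsub : B ∩ (D.U i ∪ D.U j) ⊆ (B ∩ D.U i) ∪ (D.U j \ D.U i) := by
        rintro x ⟨hxB, hx⟩
        by_cases hxi : x ∈ D.U i
        · exact Or.inl ⟨hxB, hxi⟩
        · exact Or.inr ⟨hx.resolve_left hxi, hxi⟩
      refine (measure_mono hsub).trans ((measure_union_le _ _).trans ?_)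
      rw [null_rest hS hC hT h hT1 h1, add_zero]

/-- **Job CYI** in the form asked for. -/
theorem cyi : StInt → StCyi := fun _ => cyi'

end Pool.Agent.Y905.QE

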